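import Pool.Agent.Lib.SmH.G.Dual
import Pool.Agent.Lib.SmH.H.TopR

/-!
# HEIGHTS, block G_h, module CritR: the criterion for divisibility by 2 of rigid Selmer elements

`ctr_crit`: `y = 2 y'` with `y'` of level `i + 1` iff all rigid Cassels-Tate pairings of `y` vanish.
`CTr_eq_CT`: on the 2-Selmer group the rigid pairing is the Cassels-Tate pairing.
-/

set_option autoImplicit false

open Finset

namespace Pool.Agent.SmH

open Pool.Agent.SmJ Pool.Agent.SmJ.Sys

variable {G V V1 Pl : Type*} [Group G] [AddCommGroup V] [DistribMulAction G V]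
  [AddCommGroup V1] [Module (ZMod 2) V1] {S : Sys G V V1 Pl} {chi : G → ZMod 2} {i : ℕ}
  {y : (G → V) × (Pl → V)}

/-- Every rigid Selmer element has rigid lifting data. -/
theorem exists_rlift' (h : S.Ok) (hchi : S.HomG chi) (hy : IsPr S chi i y) :
    ∃ hat Q, RLift S chi y hat Q := by
  obtain ⟨hf, hhf⟩ := exists_hf h
  obtain ⟨hat, Q, hd, -⟩ := exists_rlift h hchi hy (fun v => hf (y.2 v)) fun v _ => hhf _
  exact ⟨hat, Q, hd⟩

/-- On the 2-Selmer group the rigid pairing is the Cassels-Tate pairing. -/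
theorem CTr_eq_CT (h : S.Ok) (hchi : S.HomG chi) (hy : IsPr S chi i y) {b : G → V1}
    (hb : S.IsSel1 chi b) : CTr S chi y b = S.CT chi y.1 b := by
  obtain ⟨hat, Q, hd⟩ := exists_rlift' h hchi hy
  rw [CTr_of_rlift h hchi hd (isRel_of_isSel1 hb), CT_eq h hchi hd.1 hb]

/-- The criterion. -/
theorem ctr_crit (h : S.Ok) (hchi : S.HomG chi) (hy : IsPr S chi i y) :
    (∃ y', IsPr S chi (i + 1) y' ∧ (2 : ℕ) • y' = y) ↔
      ∀ b, IsRel S chi b → CTr S chi y b = 0 := by
  classical
  constructor
  · rintro ⟨y', hy', h2⟩ b hb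
    have h21 : ∀ s, (2 : ℕ) • y'.1 s = y.1 s := fun s => congrFun (congrArg Prod.fst h2) s
    have h22 : ∀ v, (2 : ℕ) • y'.2 v = y.2 v := fun v => congrFun (congrArg Prod.snd h2) v
    choose Q hQ using hy'.sel.loc
    have hQ' : ∀ v, ∀ s ∈ S.D v, y'.1 s = dl chi (if v ∈ S.good then Q v else y'.2 v) s := by
      intro v s hs
      by_cases hv : v ∈ S.good
      · rw [if_pos hv]; exact hQ v s hs
      · rw [if_neg hv]; exact hy'.loc v hv s hs
    have hd : RLift S chi y y'.1 (fun v => if v ∈ S.good then Q v else y'.2 v) := by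
      refine ⟨⟨hy'.sel.tf, hy'.sel.coc, h21, fun v s hs => ?_⟩, fun v hv => ?_⟩
      · rw [← hQ' v s hs, h21]
      · change (2 : ℕ) • (if v ∈ S.good then Q v else y'.2 v) = y.2 v
        rw [if_neg hv]; exact h22 v
    rw [CTr_of_rlift h hchi hd hb]
    refine finsum_eq_zero_of_forall_eq_zero fun v => ?_
    have hx : S.xi chi y'.1 (fun v => if v ∈ S.good then Q v else y'.2 v) v = 0 := by
      refine Prod.ext (h.iota_inj ?_) (h.iota_inj ?_)
      · rw [hd.1.iota_xi1 h, hQ' v _ (h.sg_mem v), sub_self]; exact (map_zero _).symm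
      · rw [hd.1.iota_xi2 h, hQ' v _ (h.phi_mem v), sub_self]; exact (map_zero _).symm
    rw [hx, sy_zero_left]
  · intro hb
    obtain ⟨hat, Q, hd⟩ := exists_rlift' h hchi hy
    have hfin : {v | v ∈ S.good ∧ S.xi chi hat Q v ∉ S.Wl chi v}.Finite := by
      refine ((exc_fin h hchi).union (hd.1.fin h hchi)).subset fun v hv => ?_
      by_cases hg : ∀ x : V1 × V1, x ∈ S.W chi v ↔ x.1 = 0
      · exact Or.inr fun h0 => hv.2 ((hg _).mpr h0)
      · exact Or.inl hg
    obtain ⟨om, hom, hbad, hgood⟩ := dualR h hchi hfin fun b hb' => by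
      rw [← CTr_of_rlift h hchi hd hb']
      exact hb b hb'
    have hcoc : ∀ s t, hat (s * t) - S.iota (om (s * t)) =
        hat s - S.iota (om s) + tw chi s (hat t - S.iota (om t)) := by
      intro s t
      simp only [hd.1.coc s t, hom.2 s t, map_add, tw_sub, tw_iota h]
      abel
    have htf : S.TF (fun s => hat s - S.iota (om s)) :=
      TF.comp₂ h hd.1.tf hom.1 (fun x y => x - S.iota y)
    have hcd : ∀ v, S.CocD chi v (fun s => hat s - S.iota (om s)) := fun v =>
      ⟨htf.on _, fun s _ t _ => hcoc s t⟩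
    -- the bad places
    have hlocb : ∀ v, v ∉ S.good → ∀ s ∈ S.D v, hat s - S.iota (om s) = dl chi (Q v) s := by
      intro v hv
      refine cocD_ext h hchi v (hcd v) (dl_cocD h hchi _ v) ?_ ?_
      · have e : om (S.sg v) = (S.xi chi hat Q v).1 := congrArg Prod.fst (hbad v hv)
        rw [e, hd.1.iota_xi1 h]
        abel
      · have e : om (S.phi v) = (S.xi chi hat Q v).2 := congrArg Prod.snd (hbad v hv)
        rw [e, hd.1.iota_xi2 h]
        abel
    -- the good places
    have hlocg : ∀ v ∈ S.good, S.Zv chi v (fun s => hat s - S.iota (om s)) := by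
      intro v hv
      obtain ⟨R, hR, h1, h2⟩ := hgood v hv
      refine ⟨Q v + R, cocD_ext h hchi v (hcd v) (dl_cocD h hchi _ v) ?_ ?_⟩
      · rw [dl_add, h1, Prod.fst_sub, map_sub, hd.1.iota_xi1 h]
        change hat (S.sg v) - S.iota (om (S.sg v)) = _ + (S.iota (om (S.sg v)) - _)
        have e : S.iota (om (S.sg v)) = -S.iota (om (S.sg v)) := (neg_iota S _).symm
        have e2 : hat (S.sg v) - dl chi (Q v) (S.sg v) =
            -(hat (S.sg v) - dl chi (Q v) (S.sg v)) :=
          (neg_of_two (hd.1.two_sub v (h.sg_mem v))).symm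
        rw [e2]
        nth_rewrite 2 [e]
        abel
      · rw [dl_add, h2, Prod.snd_sub, map_sub, hd.1.iota_xi2 h]
        change hat (S.phi v) - S.iota (om (S.phi v)) = _ + (S.iota (om (S.phi v)) - _)
        have e : S.iota (om (S.phi v)) = -S.iota (om (S.phi v)) := (neg_iota S _).symm
        have e2 : hat (S.phi v) - dl chi (Q v) (S.phi v) =
            -(hat (S.phi v) - dl chi (Q v) (S.phi v)) :=
          (neg_of_two (hd.1.two_sub v (h.phi_mem v))).symm
        rw [e2]
        nth_rewrite 2 [e]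
        abel
    refine ⟨(fun s => hat s - S.iota (om s), fun v => if v ∈ S.good then 0 else Q v),
      ⟨⟨htf, hcoc, fun s => ?_, fun v => ?_⟩, fun v hv s hs => ?_, fun v hv => if_pos hv⟩,
      Prod.ext (funext fun s => ?_) (funext fun v => ?_)⟩
    · rw [pow_succ, mul_smul, smul_sub, two_iota, sub_zero, hd.1.two, hy.sel.lev]
    · by_cases hv : v ∈ S.good
      · exact hlocg v hv
      · exact ⟨Q v, hlocb v hv⟩
    · change hat s - S.iota (om s) = dl chi (if v ∈ S.good then 0 else Q v) s
      rw [if_neg hv]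
      exact hlocb v hv s hs
    · change (2 : ℕ) • (hat s - S.iota (om s)) = y.1 s
      rw [smul_sub, two_iota, sub_zero, hd.1.two]
    · change (2 : ℕ) • (if v ∈ S.good then 0 else Q v) = y.2 v
      by_cases hv : v ∈ S.good
      · rw [if_pos hv, smul_zero, hy.off v hv]
      · rw [if_neg hv]
        exact hd.2 v hv

end Pool.Agent.SmH
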