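import Pool.Agent.Lib.SmH.G.Pr
import Pool.Agent.Lib.SmJ.I.Code

/-!
# HEIGHTS, block G_h, module ExW (4.2): existence of the inhomogeneous solution `w`

* `exists_free`: duality with free conditions at the bad places and conditions `w - xi v ∈ W v` at
  the good places: a solution exists iff `xi` is orthogonal to the strict Selmer group.
* `exists_w`: the case `xi v = (0, deg v • a (sg v))`.
* `loc_sub_iff`, `wcode_loc`, `exists_wcode`: the same in terms of codes over a vector of primes.
-/

set_option autoImplicit false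

open Polynomial

namespace Pool.Agent.SmH.ExW

open Pool.Agent.SmH Pool.Agent.SmJ Pool.Agent.SmJ.Sys
open Pool.Agent.Sm (leg Irr)

section abs

variable {G V V1 Pl : Type*} [Group G] [AddCommGroup V] [DistribMulAction G V]
  [AddCommGroup V1] [Module (ZMod 2) V1]
variable {S : Sys G V V1 Pl} {chi : G → ZMod 2}

/-- Every functional of `V1` is of the form `S.e x`. -/
theorem exists_e (h : S.Ok) (g : V1 →ₗ[ZMod 2] ZMod 2) : ∃ x, ∀ y, g y = S.e x y := by
  have := h.fin1
  have : Module.Finite (ZMod 2) V1 := Module.Finite.of_finite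
  have hinj : Function.Injective S.e := by
    rw [← LinearMap.ker_eq_bot, LinearMap.ker_eq_bot']
    intro x hx
    exact h.e_nondeg x fun y => by rw [hx, LinearMap.zero_apply]
  have hsurj : Function.Surjective S.e := by
    refine (LinearMap.injective_iff_surjective_of_finrank_eq_finrank
      (f := (S.e : V1 →ₗ[ZMod 2] Module.Dual (ZMod 2) V1)) ?_).1 hinj
    exact Subspace.dual_finrank_eq.symm
  obtain ⟨x, hx⟩ := hsurj g
  exact ⟨x, fun y => by rw [hx]⟩

/-- Every functional of `V1 × V1` is of the form `S.sy v x`. -/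
theorem exists_sy (h : S.Ok) (v : Pl) (g : (V1 × V1) →ₗ[ZMod 2] ZMod 2) :
    ∃ x, ∀ y, g y = S.sy v x y := by
  obtain ⟨x1, h1⟩ := exists_e h (g.comp (LinearMap.inr (ZMod 2) V1 V1))
  obtain ⟨x2, h2⟩ := exists_e h (g.comp (LinearMap.inl (ZMod 2) V1 V1) - S.eps v • S.e x1)
  refine ⟨(x1, x2), fun y => ?_⟩
  have e1 := h1 y.2
  have e2 := h2 y.1
  simp only [LinearMap.comp_apply, LinearMap.inr_apply, LinearMap.sub_apply, LinearMap.inl_apply,
    LinearMap.smul_apply, smul_eq_mul] at e1 e2
  have e3 : g y = g (y.1, 0) + g (0, y.2) := by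
    rw [← map_add]
    simp
  rw [Sys.sy, sym, e3, e1, ← e2]
  ring

/-- The 2-Selmer group as a subspace. -/
def selSub (S : Sys G V V1 Pl) (h : S.Ok) (chi : G → ZMod 2) : Submodule (ZMod 2) (G → V1) where
  carrier := {b | S.IsSel1 chi b}
  zero_mem' := IsSel1.zero h chi
  add_mem' := fun hb hb' => hb.add h hb'
  smul_mem' := fun a b hb => by
    rcases IT.z2_cases a with rfl | rfl
    · rw [zero_smul]
      exact IsSel1.zero h chi
    · rwa [one_smul]

theorem sy_smul_right (v : Pl) (a : ZMod 2) (x y : V1 × V1) :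
    S.sy v x (a • y) = a * S.sy v x y := by
  simp only [Sys.sy, sym, Prod.smul_fst, Prod.smul_snd, map_smul, smul_eq_mul]
  ring

/-- The local symbols of `xi` with a Selmer element have finite support. -/
theorem sy_xi_fin (h : S.Ok) (hchi : S.HomG chi) {xi : Pl → V1 × V1}
    (hxi : {v | v ∈ S.good ∧ xi v ∉ S.Wl chi v}.Finite) {b : G → V1} (hb : IsRel S chi b) :
    {v | v ∈ S.good ∧ S.sy v (xi v) (S.loc v b) ≠ 0}.Finite := by
  refine hxi.subset ?_
  rintro v ⟨hv, hne⟩
  exact ⟨hv, fun hx => hne (h.isot chi hchi v _ hx _ (hb.2 v hv))⟩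

open Classical in
/-- The sum of the symbols at the good places. -/
noncomputable def goodSum (S : Sys G V V1 Pl) (xi : Pl → V1 × V1) (b : G → V1) : ZMod 2 :=
  ∑ᶠ v, if v ∈ S.good then S.sy v (xi v) (S.loc v b) else 0

theorem goodSum_fin (h : S.Ok) (hchi : S.HomG chi) {xi : Pl → V1 × V1}
    (hxi : {v | v ∈ S.good ∧ xi v ∉ S.Wl chi v}.Finite) {b : G → V1} (hb : IsRel S chi b) :
    open Classical in
    {v | (if v ∈ S.good then S.sy v (xi v) (S.loc v b) else 0) ≠ 0}.Finite := by
  classical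
  refine (sy_xi_fin h hchi hxi hb).subset ?_
  intro v hv
  by_cases hg : v ∈ S.good
  · rw [Set.mem_ofPred_eq, if_pos hg] at hv
    exact ⟨hg, hv⟩
  · rw [Set.mem_ofPred_eq, if_neg hg] at hv
    exact absurd rfl hv

/-- **Duality with free conditions at the bad places.** -/
theorem exists_free (h : S.Ok) (hchi : S.HomG chi) (xi : Pl → V1 × V1)
    (hxi : {v | v ∈ S.good ∧ xi v ∉ S.Wl chi v}.Finite)
    (ho : ∀ b, IsStr S chi b → goodSum S xi b = 0) :
    ∃ w : G → V1, S.HomG w ∧ ∀ v ∈ S.good, S.loc v w - xi v ∈ S.Wl chi v := by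
  classical
  have := finite_bad h
  have : Fintype {v : Pl // v ∉ S.good} := Fintype.ofFinite _
  have := h.fin1
  have : Module.Finite (ZMod 2) V1 := Module.Finite.of_finite
  -- the functional on the Selmer group
  let f : selSub S h chi →ₗ[ZMod 2] ZMod 2 :=
    { toFun := fun b => goodSum S xi b.1
      map_add' := fun b b' => by
        have h1 := goodSum_fin h hchi hxi (isRel_of_isSel1 b.2)
        have h2 := goodSum_fin h hchi hxi (isRel_of_isSel1 b'.2)
        rw [goodSum, goodSum, goodSum, ← finsum_add_distrib h1 h2]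
        refine finsum_congr fun v => ?_
        by_cases hg : v ∈ S.good
        · rw [if_pos hg, if_pos hg, if_pos hg]
          change S.sy v (xi v) (S.loc v (b.1 + b'.1)) = _
          rw [loc_add, sy_add_right]
        · rw [if_neg hg, if_neg hg, if_neg hg, add_zero]
      map_smul' := fun a b => by
        rcases IT.z2_cases a with rfl | rfl
        · simp only [zero_smul, RingHom.id_apply]
          change goodSum S xi 0 = 0
          rw [goodSum]
          refine finsum_eq_zero_of_forall_eq_zero fun v => ?_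
          by_cases hg : v ∈ S.good
          · rw [if_pos hg, loc_zero, sy_zero_right]
          · rw [if_neg hg]
        · simp only [one_smul, RingHom.id_apply] }
  -- the localisation at the bad places
  let rho : selSub S h chi →ₗ[ZMod 2] ({v : Pl // v ∉ S.good} → V1 × V1) :=
    { toFun := fun b v => S.loc v.1 b.1
      map_add' := fun b b' => funext fun v => loc_add v.1 b.1 b'.1
      map_smul' := fun a b => rfl }
  have hker : f ∈ (LinearMap.ker rho).dualAnnihilator := by
    rw [Submodule.mem_dualAnnihilator]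
    intro b hb
    rw [LinearMap.mem_ker] at hb
    exact ho b.1 ⟨b.2, fun v hv => congrFun hb ⟨v, hv⟩⟩
  rw [← LinearMap.range_dualMap_eq_dualAnnihilator_ker] at hker
  obtain ⟨g, hg⟩ := hker
  -- the functional `g` is given by local elements
  have hmu : ∀ v : {v : Pl // v ∉ S.good}, ∃ x, ∀ y,
      g (Pi.single v y) = S.sy v.1 x y := fun v => by
    obtain ⟨x, hx⟩ := exists_sy h v.1
      (g.comp (LinearMap.single (ZMod 2) (fun _ : {v : Pl // v ∉ S.good} => V1 × V1) v))
    exact ⟨x, fun y => hx y⟩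
  choose mu hmu using hmu
  have hgsum : ∀ b : selSub S h chi, f b = ∑ v : {v : Pl // v ∉ S.good},
      S.sy v.1 (mu v) (S.loc v.1 b.1) := by
    intro b
    have e1 : f b = g (rho b) := by rw [← hg]; rfl
    rw [e1]
    have e2 : rho b = ∑ v, Pi.single v (rho b v) := (Finset.univ_sum_single (rho b)).symm
    rw [e2, map_sum]
    refine Finset.sum_congr rfl fun v _ => ?_
    rw [hmu]
    rfl
  -- the complete family of local conditions
  let xi' : Pl → V1 × V1 := fun v => if hv : v ∉ S.good then mu ⟨v, hv⟩ else xi v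
  have hxi' : {v | xi' v ∉ S.W chi v}.Finite := by
    refine (h.good_fin.union hxi).subset ?_
    intro v hv
    by_cases hg : v ∈ S.good
    · refine Or.inr ⟨hg, ?_⟩
      intro h1
      apply hv
      change xi' v ∈ S.Wl chi v
      simp only [xi', dif_neg (not_not.2 hg)]
      exact h1
    · exact Or.inl hg
  obtain ⟨w, hw, hloc⟩ := h.dual (S.W chi) (card_W h hchi)
    (fun v x hx y hy => h.isot chi hchi v x hx y hy) (exc_fin h hchi) xi' hxi' (by
      intro b hb1 hb2
      have hb : S.IsSel1 chi b := ⟨hb1, hb2⟩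
      have e1 : ∀ v, S.sy v (xi' v) (S.loc v b) =
          (if v ∈ S.good then S.sy v (xi v) (S.loc v b) else 0) +
          (if hv : v ∉ S.good then S.sy v (mu ⟨v, hv⟩) (S.loc v b) else 0) := by
        intro v
        by_cases hg : v ∈ S.good
        · simp only [xi', dif_neg (not_not.2 hg), if_pos hg, add_zero]
        · simp only [xi', dif_pos hg, if_neg hg, zero_add]
      have hfin2 : {v | (if hv : v ∉ S.good then S.sy v (mu ⟨v, hv⟩) (S.loc v b) else 0) ≠
          0}.Finite := by
        refine h.good_fin.subset ?_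
        intro v hv hg
        apply hv
        rw [dif_neg (not_not.2 hg)]
      rw [finsum_congr e1, finsum_add_distrib (goodSum_fin h hchi hxi (isRel_of_isSel1 hb)) hfin2]
      change goodSum S xi b + _ = 0
      have e2 : goodSum S xi b = ∑ v : {v : Pl // v ∉ S.good},
          S.sy v.1 (mu v) (S.loc v.1 b) := hgsum ⟨b, hb⟩
      have e3 : ∑ᶠ v, (if hv : v ∉ S.good then S.sy v (mu ⟨v, hv⟩) (S.loc v b) else 0) =
          ∑ v : {v : Pl // v ∉ S.good}, S.sy v.1 (mu v) (S.loc v.1 b) := by
        rw [← finsum_eq_sum_of_fintype]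
        have e4 : ∑ᶠ v : {v : Pl // v ∉ S.good}, S.sy v.1 (mu v) (S.loc v.1 b) =
            ∑ᶠ v ∈ {v : Pl | v ∉ S.good},
              (if hv : v ∉ S.good then S.sy v (mu ⟨v, hv⟩) (S.loc v b) else 0) := by
          rw [← finsum_set_coe_eq_finsum_mem]
          refine finsum_congr fun v => ?_
          have hv : v.1 ∉ S.good := v.2
          rw [dif_pos hv]
        rw [e4]
        refine finsum_congr fun v => ?_
        by_cases hg : v ∈ S.good
        · rw [dif_neg (not_not.2 hg)]
          simp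
        · have hv : v ∈ {v : Pl | v ∉ S.good} := hg
          rw [finsum_eq_if, if_pos hv]
      rw [e2, e3]
      exact CharTwo.add_self_eq_zero _)
  refine ⟨w, hw, fun v hv => ?_⟩
  have h1 : S.loc v w - xi' v ∈ S.Wl chi v := hloc v
  simp only [xi', dif_neg (not_not.2 hv)] at h1
  exact h1

theorem sy_zero_fst (v : Pl) (x : V1) (y : V1 × V1) : S.sy v (0, x) y = S.e x y.1 := by
  simp only [Sys.sy, sym, map_zero, LinearMap.zero_apply, zero_add, mul_zero, add_zero]

/-- **Existence of `w` (4.2).** -/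
theorem exists_w (h : S.Ok) (hchi : S.HomG chi) (deg : Pl → ℕ) {a : G → V1} (ha : S.HomG a)
    (ho : ∀ b, IsStr S chi b →
      ∑ᶠ v, (deg v : ZMod 2) * S.e (a (S.sg v)) (b (S.sg v)) = 0) :
    ∃ w : G → V1, S.HomG w ∧ ∀ v ∈ S.good,
      S.loc v w - (0, (deg v : ZMod 2) • a (S.sg v)) ∈ S.Wl chi v := by
  classical
  refine exists_free h hchi (fun v => (0, (deg v : ZMod 2) • a (S.sg v))) ?_ fun b hb => ?_
  · refine (HomG.fin h ha).subset ?_
    rintro v ⟨_, hv⟩ h0
    apply hv
    rw [h0, smul_zero]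
    exact (S.W chi v).zero_mem
  · rw [goodSum]
    refine (finsum_congr fun v => ?_).trans (ho b hb)
    by_cases hg : v ∈ S.good
    · rw [if_pos hg, sy_zero_fst, map_smul, LinearMap.smul_apply, smul_eq_mul]
      rfl
    · rw [if_neg hg]
      have h1 : b (S.sg v) = 0 := congrArg Prod.fst (hb.2 v hg)
      rw [h1, map_zero, mul_zero]

/-- The converse: if `w` exists, `a` is orthogonal to the strict Selmer group. -/
theorem w_orth (h : S.Ok) (hchi : S.HomG chi) (deg : Pl → ℕ) {a w : G → V1} (hw : S.HomG w)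
    (hwl : ∀ v ∈ S.good, S.loc v w - (0, (deg v : ZMod 2) • a (S.sg v)) ∈ S.Wl chi v)
    {b : G → V1} (hb : IsStr S chi b) :
    ∑ᶠ v, (deg v : ZMod 2) * S.e (a (S.sg v)) (b (S.sg v)) = 0 := by
  rw [← h.recip w b hw hb.1.1]
  refine finsum_congr fun v => ?_
  by_cases hg : v ∈ S.good
  · have h1 := h.isot chi hchi v _ (hwl v hg) _ (hb.1.2 v)
    have h2 : S.loc v w = (S.loc v w - (0, (deg v : ZMod 2) • a (S.sg v))) +
        (0, (deg v : ZMod 2) • a (S.sg v)) := (sub_add_cancel _ _).symm
    rw [h2, sy_add_left, h1, zero_add, sy_zero_fst, map_smul, LinearMap.smul_apply, smul_eq_mul]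
    rfl
  · have h1 : b (S.sg v) = 0 := congrArg Prod.fst (hb.2 v hg)
    rw [hb.2 v hg, sy_zero_right, h1, map_zero, mul_zero]

end abs

section codes

variable {k : Type} [Field k] {G V V1 Pl : Type} [Group G] [AddCommGroup V] [DistribMulAction G V]
  [AddCommGroup V1] [Module (ZMod 2) V1]
variable {S : Sys G V V1 Pl} {ch : k[X] → G → ZMod 2} {d : TwData k V1} {pl : k[X] → Pl}
  {J : Type} [Fintype J] {p : J → k[X]}

/-- The local condition at `p j` with right side, explicitly. -/
theorem loc_sub_iff (h : S.Ok) (hc : ChOk S ch d pl) (hp : PVec d p) (w : CodeJ d J) (j : J)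
    (x : V1) :
    S.loc (pl (p j)) (homJ ch d p w) - (0, x) ∈ S.Wl (chiJ ch p) (pl (p j)) ↔
      condJ d p w j = x := by
  have hg : pl (p j) ∈ S.good := (hc.good _ (hp.monic j) (hp.irr j)).mpr (hp.ne j)
  have h1 := Code.chiJ_sg_p hc hp j
  have hx : (S.loc (pl (p j)) (homJ ch d p w) - (0, x)).1 = w.2.2 j := by
    rw [Prod.fst_sub]
    change homJ ch d p w (S.sg (pl (p j))) - 0 = _
    rw [sub_zero, Code.homJ_sg_p hc hp]
  obtain ⟨z, hz⟩ := h.half (S.iota (w.2.2 j))
  rw [Sys.mem_Wl_ram h hg h1 _ (z := z) (by rw [hx]; exact hz), ← Code.homJ_kap h hc _ z hz,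
    Code.condJ_eq hc hp, homJ_add]
  change S.iota _ = S.iota (homJ ch d p w (S.phi (pl (p j))) - x) ↔ homJ ch d p w _ +
    homJ ch d p (kapJ d J (w.2.2 j)) _ = x
  rw [h.iota_inj.eq_iff, IT.v1_sub]
  constructor
  · intro e
    rw [e, ← add_assoc, IT.v1_add_self, zero_add]
  · intro e
    rw [← e, ← add_assoc, IT.v1_add_self, zero_add]

/-- The relaxed Selmer group in codes. -/
theorem isRel_homJ_iff (h : S.Ok) (hc : ChOk S ch d pl) (hp : PVec d p) (c : CodeJ d J) :
    IsRel S (chiJ ch p) (homJ ch d p c) ↔ c ∈ SelpJ d p := by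
  have hchi := Code.homG_chiJ h hc hp
  constructor
  · intro hr j
    exact (Code.mem_Wl_p_iff h hc hp c j).1
      (hr.2 _ ((hc.good _ (hp.monic j) (hp.irr j)).mpr (hp.ne j)))
  · intro hs
    refine ⟨Code.homG_homJ h hc hp c, fun v hv => ?_⟩
    rcases hc.pl_cases v with rfl | ⟨P, hP, hP', rfl⟩
    · exact absurd hv h.inf_not_good
    · by_cases hj : ∃ j, p j = P
      · obtain ⟨j, rfl⟩ := hj
        exact (Code.mem_Wl_p_iff h hc hp c j).2 (hs j)
      · push Not at hj
        have h0 : chiJ ch p (S.sg (pl P)) = 0 := Code.chiJ_sg_off hc hp hP hP' hj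
        rw [Sys.mem_Wl_good h hchi hv h0]
        have hell : ∀ i, P ≠ d.ell i := (hc.good P hP hP').1 hv
        change homJ ch d p c (S.sg (pl P)) = 0
        rw [homJ, hc.sg_u hP hP', zero_smul, zero_add, Finset.sum_eq_zero, Finset.sum_eq_zero,
          add_zero]
        · intro j _
          rw [hc.sg_ne hP hP' (hp.monic j) (hp.irr j) (hj j).symm, zero_smul]
        · intro i _
          rw [hc.sg_ne hP hP' (d.ell_monic i) (d.ell_irr i) (hell i), zero_smul]

/-- The values of the homomorphism of a code outside of the primes of `p` and the bad primes. -/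
theorem homJ_sg_off (hc : ChOk S ch d pl) (hp : PVec d p) (c : CodeJ d J) {P : k[X]}
    (hP : P.Monic) (hP' : Irreducible P) (hj : ∀ j, p j ≠ P) (hell : ∀ i, P ≠ d.ell i) :
    homJ ch d p c (S.sg (pl P)) = 0 := by
  rw [homJ, hc.sg_u hP hP', zero_smul, zero_add, Finset.sum_eq_zero, Finset.sum_eq_zero,
    add_zero]
  · intro j _
    rw [hc.sg_ne hP hP' (hp.monic j) (hp.irr j) (hj j).symm, zero_smul]
  · intro i _
    rw [hc.sg_ne hP hP' (d.ell_monic i) (d.ell_irr i) (hell i), zero_smul]

/-- The local conditions on `w` at all the good places. -/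
theorem wcode_loc (h : S.Ok) (hc : ChOk S ch d pl) (hp : PVec d p) {deg : Pl → ℕ}
    (hd : ∀ P : k[X], P.Monic → Irreducible P → deg (pl P) = P.natDegree) {a w : CodeJ d J}
    (hw : ∀ l, condJ d p w l = (p l).natDegree • a.2.2 l) :
    ∀ v ∈ S.good, S.loc v (homJ ch d p w) -
      (0, (deg v : ZMod 2) • homJ ch d p a (S.sg v)) ∈ S.Wl (chiJ ch p) v := by
  have hchi := Code.homG_chiJ h hc hp
  intro v hv
  rcases hc.pl_cases v with rfl | ⟨P, hP, hP', rfl⟩
  · exact absurd hv h.inf_not_good
  · by_cases hj : ∃ j, p j = P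
    · obtain ⟨j, rfl⟩ := hj
      rw [loc_sub_iff h hc hp, hw j, hd _ hP hP', Code.homJ_sg_p hc hp, Nat.cast_smul_eq_nsmul]
    · push Not at hj
      have h0 : chiJ ch p (S.sg (pl P)) = 0 := Code.chiJ_sg_off hc hp hP hP' hj
      have hell : ∀ i, P ≠ d.ell i := (hc.good P hP hP').1 hv
      rw [Sys.mem_Wl_good h hchi hv h0, Prod.fst_sub, sub_zero]
      exact homJ_sg_off hc hp w hP hP' hj hell

open Classical in
/-- A homomorphism which is unramified outside of `p` and of the bad places comes from a code. -/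
theorem exists_code (h : S.Ok) (hc : ChOk S ch d pl) (hp : PVec d p) {b : G → V1} (hb : S.HomG b)
    (hun : ∀ P : k[X], P.Monic → Irreducible P → (∀ i, P ≠ d.ell i) → (∀ j, p j ≠ P) →
      b (S.sg (pl P)) = 0) : ∃ c : CodeJ d J, homJ ch d p c = b := by
  -- the finite set of primes
  set Q : Finset k[X] := Finset.univ.image d.ell ∪ Finset.univ.image p with hQdef
  have hQ : ∀ P ∈ Q, P.Monic ∧ Irreducible P := by
    intro P hP
    rw [hQdef, Finset.mem_union, Finset.mem_image, Finset.mem_image] at hP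
    rcases hP with ⟨i, _, rfl⟩ | ⟨j, _, rfl⟩
    · exact ⟨d.ell_monic i, d.ell_irr i⟩
    · exact ⟨hp.monic j, hp.irr j⟩
  have hun' : ∀ P, P.Monic → Irreducible P → P ∉ Q → b (S.sg (pl P)) = 0 := by
    intro P hP hP' hPQ
    rw [hQdef, Finset.mem_union, not_or, Finset.mem_image, Finset.mem_image] at hPQ
    exact hun P hP hP' (fun i e => hPQ.1 ⟨i, Finset.mem_univ i, e.symm⟩)
      (fun j e => hPQ.2 ⟨j, Finset.mem_univ j, e⟩)
  obtain ⟨w, key⟩ := hc.unr_expand_V1 h hb Q hQ hun'
  have hdis : Disjoint (Finset.univ.image d.ell) (Finset.univ.image p) := by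
    rw [Finset.disjoint_left]
    intro P hP hP'
    rw [Finset.mem_image] at hP hP'
    obtain ⟨i, _, rfl⟩ := hP
    obtain ⟨j, _, hj⟩ := hP'
    exact hp.ne j i hj
  have hsum : ∀ F : k[X] → V1, ∑ P ∈ Q, F P = ∑ i, F (d.ell i) + ∑ j, F (p j) := by
    intro F
    rw [hQdef, Finset.sum_union hdis, Finset.sum_image (fun a _ b _ e => d.ell_inj e),
      Finset.sum_image (fun a _ b _ e => hp.inj e)]
  refine ⟨(w, (fun i => b (S.sg (pl (d.ell i)))), fun j => b (S.sg (pl (p j)))), ?_⟩
  funext s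
  rw [key s, hsum (fun P => ch P s • b (S.sg (pl P))), homJ, add_assoc]

/-- Every element of the relaxed Selmer group comes from a code. -/
theorem isRel_surj (h : S.Ok) (hc : ChOk S ch d pl) (hp : PVec d p) {b : G → V1}
    (hb : IsRel S (chiJ ch p) b) : ∃ c ∈ SelpJ d p, homJ ch d p c = b := by
  obtain ⟨c, hcb⟩ := exists_code h hc hp hb.1 (fun P hP hP' hell hj => by
    have hg : pl P ∈ S.good := (hc.good P hP hP').mpr hell
    exact (Sys.mem_Wl_good h (Code.homG_chiJ h hc hp) hg
      (Code.chiJ_sg_off hc hp hP hP' hj) _).mp (hb.2 _ hg))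
  refine ⟨c, ?_, hcb⟩
  rw [← isRel_homJ_iff h hc hp, hcb]
  exact hb

/-- **Existence of the code `w`.** -/
theorem exists_wcode (h : S.Ok) (hc : ChOk S ch d pl) (hp : PVec d p) {deg : Pl → ℕ}
    (hd : ∀ P : k[X], P.Monic → Irreducible P → deg (pl P) = P.natDegree) (a : CodeJ d J)
    (hno : ¬ ∃ w : CodeJ d J, ∀ l, condJ d p w l = (p l).natDegree • a.2.2 l) :
    ∃ b : CodeJ d J, IsStr S (chiJ ch p) (homJ ch d p b) ∧
      ∑ᶠ v, (deg v : ZMod 2) * S.e (homJ ch d p a (S.sg v)) (homJ ch d p b (S.sg v)) = 1 := by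
  have hchi := Code.homG_chiJ h hc hp
  by_contra hcon
  push Not at hcon
  apply hno
  obtain ⟨w, hw, hwl⟩ := exists_w h hchi deg (Code.homG_homJ h hc hp a) (fun b hb => by
    obtain ⟨c, _, rfl⟩ := isRel_surj h hc hp hb.isRel
    exact (IT.z2_cases _).resolve_right (hcon c hb))
  obtain ⟨c, rfl⟩ := exists_code h hc hp hw (fun P hP hP' hell hj => by
    have hg : pl P ∈ S.good := (hc.good P hP hP').mpr hell
    have h1 := hwl _ hg
    rw [Sys.mem_Wl_good h hchi hg (Code.chiJ_sg_off hc hp hP hP' hj), Prod.fst_sub,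
      sub_zero] at h1
    exact h1)
  refine ⟨c, fun l => ?_⟩
  have hg : pl (p l) ∈ S.good := (hc.good _ (hp.monic l) (hp.irr l)).mpr (hp.ne l)
  have h1 := hwl _ hg
  rw [loc_sub_iff h hc hp, hd _ (hp.monic l) (hp.irr l), Code.homJ_sg_p hc hp,
    Nat.cast_smul_eq_nsmul] at h1
  exact h1

/-- If the code `w` exists, `a` is orthogonal to the strict Selmer group. -/
theorem wcode_orth (h : S.Ok) (hc : ChOk S ch d pl) (hp : PVec d p) {deg : Pl → ℕ}
    (hd : ∀ P : k[X], P.Monic → Irreducible P → deg (pl P) = P.natDegree) {a w : CodeJ d J}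
    (hw : ∀ l, condJ d p w l = (p l).natDegree • a.2.2 l) {b : G → V1}
    (hb : IsStr S (chiJ ch p) b) :
    ∑ᶠ v, (deg v : ZMod 2) * S.e (homJ ch d p a (S.sg v)) (b (S.sg v)) = 0 :=
  w_orth h (Code.homG_chiJ h hc hp) deg (Code.homG_homJ h hc hp w) (wcode_loc h hc hp hd hw) hb

end codes

end Pool.Agent.SmH.ExW
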