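import Pool.Agent.Lib.SmH.G.CTrAdd

/-!
# HEIGHTS, block G_h, module Count: counting lifts under doubling
-/

set_option autoImplicit false

namespace Pool.Agent.SmH

open Pool.Agent.SmJ Pool.Agent.SmJ.Sys

/-! ### sums of characters -/

theorem sum_sgn_zero {A : Type*} [AddCommGroup A] [Finite A] (f : A →+ ZMod 2)
    (hf : ∀ a, f a = 0) : ∑ᶠ a, sgn (f a) = (Nat.card A : ℤ) := by
  classical
  have := Fintype.ofFinite A
  rw [finsum_eq_sum_of_fintype, Finset.sum_congr rfl fun a _ => by rw [hf a, sgn_zero],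
    Finset.sum_const, Finset.card_univ, Nat.card_eq_fintype_card]
  simp

theorem sum_sgn_ne {A : Type*} [AddCommGroup A] [Finite A] (f : A →+ ZMod 2)
    {a0 : A} (h0 : f a0 ≠ 0) : ∑ᶠ a, sgn (f a) = 0 := by
  classical
  have := Fintype.ofFinite A
  rw [finsum_eq_sum_of_fintype]
  have h1 : f a0 = 1 := by
    have : ∀ x : ZMod 2, x ≠ 0 → x = 1 := by decide
    exact this _ h0
  have h2 : ∑ a, sgn (f a) = ∑ a, sgn (f (a + a0)) :=
    (Equiv.sum_comp (Equiv.addRight a0) fun a => sgn (f a)).symm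
  have h3 : ∀ x : ZMod 2, sgn (x + 1) = -sgn x := by decide
  simp only [map_add, h1, h3, Finset.sum_neg_distrib] at h2
  omega

/-- A subgroup which is its own orthogonal complement. -/
theorem card_self_perp {A : Type*} [AddCommGroup A] [Finite A] (B : A →+ A →+ ZMod 2)
    (hB : ∀ y, (∀ x, B x y = 0) → y = 0) (R : AddSubgroup A)
    (hR : ∀ x, x ∈ R ↔ ∀ r ∈ R, B x r = 0) : Nat.card A = Nat.card R ^ 2 := by
  classical
  have := Fintype.ofFinite A
  have h1 : ∀ x : A, ∑ r : R, sgn (B x r) = if x ∈ R then (Nat.card R : ℤ) else 0 := by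
    intro x
    rw [← finsum_eq_sum_of_fintype]
    by_cases hx : x ∈ R
    · rw [if_pos hx]
      exact sum_sgn_zero ((B x).comp R.subtype) fun r => (hR x).1 hx r.1 r.2
    · rw [if_neg hx]
      have h2 : ∃ r : R, ((B x).comp R.subtype) r ≠ 0 := by
        by_contra hc
        push Not at hc
        exact hx ((hR x).2 fun r hr => hc ⟨r, hr⟩)
      obtain ⟨r, hr⟩ := h2
      exact sum_sgn_ne ((B x).comp R.subtype) hr
  have h2 : ∀ r : R, ∑ x : A, sgn (B x r) = if r = 0 then (Nat.card A : ℤ) else 0 := by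
    intro r
    rw [← finsum_eq_sum_of_fintype]
    by_cases hr : r = 0
    · rw [if_pos hr]
      exact sum_sgn_zero (B.flip r.1) fun x => by
        rw [hr]
        exact map_zero (B x)
    · rw [if_neg hr]
      have h3 : ∃ x : A, (B.flip r.1) x ≠ 0 := by
        by_contra hc
        push Not at hc
        exact hr (Subtype.ext (hB r.1 hc))
      obtain ⟨x, hx⟩ := h3
      exact sum_sgn_ne (B.flip r.1) hx
  have h3 : ∑ x : A, ∑ r : R, sgn (B x r) = ∑ r : R, ∑ x : A, sgn (B x r) := Finset.sum_comm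
  rw [Finset.sum_congr rfl fun x _ => h1 x, Finset.sum_congr rfl fun r _ => h2 r,
    Finset.sum_ite_eq' Finset.univ (0 : R) fun _ => (Nat.card A : ℤ), if_pos (Finset.mem_univ _),
    ← Finset.sum_filter, Finset.sum_const, nsmul_eq_mul] at h3
  have h4 : (Finset.univ.filter fun x : A => x ∈ R).card = Nat.card R := by
    rw [Nat.card_eq_fintype_card, Fintype.card_subtype]
  rw [h4] at h3
  rw [sq]
  exact_mod_cast h3.symm

variable {G V V1 Pl : Type*} [Group G] [AddCommGroup V] [DistribMulAction G V]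
  [AddCommGroup V1] [Module (ZMod 2) V1]
variable {S : Sys G V V1 Pl} {chi : G → ZMod 2} {i j : ℕ} {y y' : (G → V) × (Pl → V)}

/-- The lifts of an element which has one. -/
theorem card_fiber (h : S.Ok) (hchi : S.HomG chi) {y0 : (G → V) × (Pl → V)}
    (hy0 : IsPr S chi (i + 1) y0) :
    Nat.card {y' : (G → V) × (Pl → V) // IsPr S chi (i + 1) y' ∧ (2 : ℕ) • y' = (2 : ℕ) • y0} =
      Nat.card {b : G → V1 // IsStr S chi b} *
        Nat.card V1 ^ Nat.card {v : Pl // v ∉ S.good} := by
  rw [← card_ker h hchi i]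
  exact Nat.card_congr
    { toFun := fun y' => ⟨y'.1 - y0, y'.2.1.sub h hy0, by rw [smul_sub, y'.2.2, sub_self]⟩
      invFun := fun y' => ⟨y'.1 + y0, y'.2.1.add h hy0, by rw [smul_add, y'.2.2, zero_add]⟩
      left_inv := fun y' => Subtype.ext (sub_add_cancel _ _)
      right_inv := fun y' => Subtype.ext (add_sub_cancel_right _ _) }

/-! ### the local space of the bad places -/

/-- The local symbol as a biadditive map. -/
noncomputable def syB (S : Sys G V V1 Pl) (v : Pl) : V1 × V1 →+ V1 × V1 →+ ZMod 2 :=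
  AddMonoidHom.mk' (fun x => AddMonoidHom.mk' (fun y => S.sy v x y) (sy_add_right v x))
    fun x x' => AddMonoidHom.ext fun y => sy_add_left v x x' y

theorem syB_apply (v : Pl) (x y : V1 × V1) : syB S v x y = S.sy v x y := rfl

/-- The local symbol is nondegenerate. -/
theorem sy_nd (h : S.Ok) (v : Pl) {y : V1 × V1} (hy : ∀ x, S.sy v x y = 0) : y = 0 := by
  have h1 : y.1 = 0 := h.e_nondeg _ fun w => by
    have h2 := hy (0, w)
    simp only [Sys.sy, sym, map_zero, LinearMap.zero_apply, zero_add, mul_zero, add_zero] at h2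
    rw [e_comm h.e_alt]
    exact h2
  have h3 : y.2 = 0 := h.e_nondeg _ fun w => by
    have h2 := hy (w, 0)
    simp only [Sys.sy, sym, map_zero, add_zero, h1, mul_zero] at h2
    rw [e_comm h.e_alt]
    exact h2
  exact Prod.ext h1 h3

section lam

variable [Fintype {v : Pl // v ∉ S.good}]

/-- The pairing on the product of the local groups at the bad places. -/
noncomputable def lamB (S : Sys G V V1 Pl) [Fintype {v : Pl // v ∉ S.good}] :
    ({v : Pl // v ∉ S.good} → V1 × V1) →+ ({v : Pl // v ∉ S.good} → V1 × V1) →+ ZMod 2 :=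
  AddMonoidHom.mk' (fun x => AddMonoidHom.mk' (fun y => ∑ v, S.sy v.1 (x v) (y v))
    fun y y' => by
      rw [← Finset.sum_add_distrib]
      exact Finset.sum_congr rfl fun v _ => sy_add_right _ _ _ _)
    fun x x' => AddMonoidHom.ext fun y => by
      change ∑ v, S.sy v.1 ((x + x') v) (y v) = ∑ v, S.sy v.1 (x v) (y v) +
        ∑ v, S.sy v.1 (x' v) (y v)
      rw [← Finset.sum_add_distrib]
      exact Finset.sum_congr rfl fun v _ => sy_add_left _ _ _ _

theorem lamB_apply (x y : {v : Pl // v ∉ S.good} → V1 × V1) :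
    lamB S x y = ∑ v, S.sy v.1 (x v) (y v) := rfl

theorem lamB_nd (h : S.Ok) {y : {v : Pl // v ∉ S.good} → V1 × V1}
    (hy : ∀ x, lamB S x y = 0) : y = 0 := by
  classical
  funext v
  refine sy_nd h v.1 fun x => ?_
  have h1 := hy (Pi.single v x)
  rw [lamB_apply, Finset.sum_eq_single v, Pi.single_eq_same] at h1
  · exact h1
  · intro w _ hw
    rw [Pi.single_eq_of_ne hw, sy_zero_left]
  · intro hv
    exact absurd (Finset.mem_univ v) hv

end lam

/-- The localisation of the relaxed Selmer group at the bad places. -/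
def resB (S : Sys G V V1 Pl) (h : S.Ok) (chi : G → ZMod 2) :
    Rel S h chi →+ ({v : Pl // v ∉ S.good} → V1 × V1) where
  toFun b := fun v => S.loc v.1 b.1
  map_zero' := rfl
  map_add' _ _ := rfl

theorem resB_apply (h : S.Ok) (b : Rel S h chi) (v : {v : Pl // v ∉ S.good}) :
    resB S h chi b v = S.loc v.1 b.1 := rfl

/-- The kernel of the localisation is the strict Selmer group. -/
theorem card_ker_resB (h : S.Ok) :
    Nat.card (resB S h chi).ker = Nat.card {b : G → V1 // IsStr S chi b} :=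
  Nat.card_congr
    { toFun := fun b => ⟨b.1.1, isStr_of_isRel b.1.2 fun v hv =>
        congrFun (AddMonoidHom.mem_ker.1 b.2) ⟨v, hv⟩⟩
      invFun := fun b => ⟨⟨b.1, b.2.isRel⟩, AddMonoidHom.mem_ker.2 (funext fun v => b.2.2 v.1 v.2)⟩
      left_inv := fun _ => rfl
      right_inv := fun _ => rfl }

/-- The sum over all places of the symbol with a relaxed Selmer element, if the other entry is in
the Kummer group at the good places. -/
theorem finsum_sy_eq (h : S.Ok) (hchi : S.HomG chi) [Fintype {v : Pl // v ∉ S.good}]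
    {x : Pl → V1 × V1} (hx : ∀ v ∈ S.good, x v ∈ S.Wl chi v) {b : G → V1} (hb : IsRel S chi b) :
    ∑ᶠ v, S.sy v (x v) (S.loc v b) =
      ∑ v : {v : Pl // v ∉ S.good}, S.sy v.1 (x v.1) (S.loc v.1 b) := by
  classical
  have h0 : ∀ v ∈ S.good, S.sy v (x v) (S.loc v b) = 0 := fun v hv =>
    h.isot chi hchi v _ (hx v hv) _ (hb.2 v hv)
  rw [finsum_eq_sum_of_support_subset (s := (Finset.univ : Finset {v : Pl // v ∉ S.good}).map
    (Function.Embedding.subtype _)), Finset.sum_map]
  · rfl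
  · intro v hv
    have hvg : v ∉ S.good := fun hg => hv (h0 v hg)
    rw [Finset.mem_coe, Finset.mem_map]
    exact ⟨⟨v, hvg⟩, Finset.mem_univ _, rfl⟩

/-- The image of the relaxed Selmer group is its own orthogonal complement, hence its order. -/
theorem card_isRel_of (h : S.Ok) (hchi : S.HomG chi)
    (hdual : ∀ xi : Pl → V1 × V1, {v | v ∈ S.good ∧ xi v ∉ S.Wl chi v}.Finite →
      (∀ b, IsRel S chi b → ∑ᶠ v, S.sy v (xi v) (S.loc v b) = 0) →
      ∃ om : G → V1, S.HomG om ∧ (∀ v, v ∉ S.good → S.loc v om = xi v) ∧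
        ∀ v ∈ S.good, S.loc v om - xi v ∈ S.Wl chi v) :
    Nat.card {b : G → V1 // IsRel S chi b} = Nat.card {b : G → V1 // IsStr S chi b} *
      Nat.card V1 ^ Nat.card {v : Pl // v ∉ S.good} := by
  classical
  have := finite_bad h
  have := Fintype.ofFinite {v : Pl // v ∉ S.good}
  have := h.fin1
  have hR : ∀ x, x ∈ (resB S h chi).range ↔ ∀ r ∈ (resB S h chi).range, lamB S x r = 0 := by
    intro x
    constructor
    · rintro ⟨c, rfl⟩ _ ⟨b, rfl⟩
      rw [lamB_apply]
      have h1 := finsum_sy_eq h hchi (x := fun v => S.loc v c.1) (fun v hv => c.2.2 v hv) b.2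
      exact h1.symm.trans (h.recip _ _ c.2.1 b.2.1)
    · intro hx
      let xi : Pl → V1 × V1 := fun v => if hv : v ∉ S.good then x ⟨v, hv⟩ else 0
      have hxg : ∀ v ∈ S.good, xi v = 0 := fun v hv => dif_neg (not_not.2 hv)
      have hxb : ∀ v : {v : Pl // v ∉ S.good}, xi v.1 = x v := fun v => dif_pos v.2
      have hxW : ∀ v ∈ S.good, xi v ∈ S.Wl chi v := fun v hv => by
        rw [hxg v hv]
        exact (S.W chi v).zero_mem
      obtain ⟨om, h1, h2, h3⟩ := hdual xi
        ((Set.finite_empty).subset fun v hv => hv.2 (hxW v hv.1)) (fun b hb => by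
          rw [finsum_sy_eq h hchi hxW hb]
          have h4 := hx _ ⟨⟨b, hb⟩, rfl⟩
          rw [lamB_apply] at h4
          refine Eq.trans (Finset.sum_congr rfl fun v _ => ?_) h4
          rw [hxb v]
          rfl)
      refine ⟨⟨om, h1, fun v hv => ?_⟩, funext fun v => ?_⟩
      · have h4 := h3 v hv
        rwa [hxg v hv, sub_zero] at h4
      · exact (h2 v.1 v.2).trans (hxb v)
  have h1 := card_self_perp (lamB S) (fun y hy => lamB_nd h hy) _ hR
  have h2 : Nat.card ({v : Pl // v ∉ S.good} → V1 × V1) =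
      (Nat.card V1 ^ Nat.card {v : Pl // v ∉ S.good}) ^ 2 := by
    rw [Nat.card_fun, Nat.card_prod, ← sq, ← pow_mul, ← pow_mul, mul_comm]
  rw [h2] at h1
  have h3 := Nat.pow_left_injective (n := 2) (by norm_num) h1
  have h4 := card_hom (resB S h chi)
  rw [card_ker_resB h, ← h3] at h4
  exact h4.symm

/-! ### the number of lifts -/

/-- The number of lifts of `y` as a character sum. -/
theorem card_lift_of (h : S.Ok) (hchi : S.HomG chi) (hf : Finite {b : G → V1 // IsRel S chi b})
    (hcard : Nat.card {b : G → V1 // IsRel S chi b} = Nat.card {b : G → V1 // IsStr S chi b} *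
      Nat.card V1 ^ Nat.card {v : Pl // v ∉ S.good})
    (hcrit : (∃ y', IsPr S chi (i + 1) y' ∧ (2 : ℕ) • y' = y) ↔
      ∀ b, IsRel S chi b → CTr S chi y b = 0)
    (hy : IsPr S chi i y) :
    (Nat.card {y' : (G → V) × (Pl → V) // IsPr S chi (i + 1) y' ∧ (2 : ℕ) • y' = y} : ℤ) =
      ∑ᶠ b : {b : G → V1 // IsRel S chi b}, sgn (CTr S chi y b.1) := by
  have : Finite (Rel S h chi) := hf
  by_cases hl : ∃ y', IsPr S chi (i + 1) y' ∧ (2 : ℕ) • y' = y
  · have h0 := hcrit.1 hl
    obtain ⟨y0, h1, rfl⟩ := hl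
    rw [card_fiber h hchi h1, ← hcard]
    exact (sum_sgn_zero (ctrR h hchi hy) fun b => h0 b.1 b.2).symm
  · have h1 : IsEmpty {y' : (G → V) × (Pl → V) // IsPr S chi (i + 1) y' ∧ (2 : ℕ) • y' = y} :=
      ⟨fun y' => hl ⟨y'.1, y'.2⟩⟩
    rw [Nat.card_of_isEmpty]
    have h2 := hl
    rw [hcrit] at h2
    push Not at h2
    obtain ⟨b, hb, hne⟩ := h2
    exact (sum_sgn_ne (ctrR h hchi hy) (a0 := (⟨b, hb⟩ : Rel S h chi)) hne).symm

/-- Counting the elements of level `i + 1` by their doubles. -/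
theorem card_double (h : S.Ok) (hchi : S.HomG chi) (hf : Finite {b : G → V1 // IsRel S chi b})
    (P : (G → V) × (Pl → V) → Prop) :
    Nat.card {y' : (G → V) × (Pl → V) // IsPr S chi (i + 1) y' ∧ P ((2 : ℕ) • y')} =
      ∑ᶠ y : {y : (G → V) × (Pl → V) // IsPr S chi i y ∧ P y},
        Nat.card {y' : (G → V) × (Pl → V) // IsPr S chi (i + 1) y' ∧ (2 : ℕ) • y' = y.1} := by
  classical
  have h1 : Finite {y : (G → V) × (Pl → V) // IsPr S chi i y} := finite_isPr h hchi hf i
  have h2 : Finite {y : (G → V) × (Pl → V) // IsPr S chi (i + 1) y} :=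
    finite_isPr h hchi hf (i + 1)
  have h3 : Finite {y : (G → V) × (Pl → V) // IsPr S chi i y ∧ P y} :=
    Finite.of_injective (fun y => (⟨y.1, y.2.1⟩ : {y : (G → V) × (Pl → V) // IsPr S chi i y}))
      fun _ _ he => Subtype.ext (congrArg (fun x => x.1) he)
  have h4 : ∀ y : (G → V) × (Pl → V),
      Finite {y' : (G → V) × (Pl → V) // IsPr S chi (i + 1) y' ∧ (2 : ℕ) • y' = y} := fun y =>
    Finite.of_injective
      (fun y' => (⟨y'.1, y'.2.1⟩ : {y : (G → V) × (Pl → V) // IsPr S chi (i + 1) y}))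
      fun _ _ he => Subtype.ext (congrArg (fun x => x.1) he)
  have := Fintype.ofFinite {y : (G → V) × (Pl → V) // IsPr S chi i y ∧ P y}
  rw [finsum_eq_sum_of_fintype, ← Nat.card_sigma]
  exact Nat.card_congr
    { toFun := fun y' => ⟨⟨(2 : ℕ) • y'.1, y'.2.1.two, y'.2.2⟩, ⟨y'.1, y'.2.1, rfl⟩⟩
      invFun := fun p => ⟨p.2.1, p.2.2.1, by rw [p.2.2.2]; exact p.1.2.2⟩
      left_inv := fun _ => rfl
      right_inv := fun p => by
        obtain ⟨⟨y, h5⟩, ⟨y', h6, h7⟩⟩ := p
        change (2 : ℕ) • y' = y at h7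
        subst h7
        rfl }

/-- The number of the elements of level `i + 1` whose double satisfies `P`, as a double character
sum. -/
theorem card_lift_sum_of (h : S.Ok) (hchi : S.HomG chi)
    (hf : Finite {b : G → V1 // IsRel S chi b})
    (hcard : Nat.card {b : G → V1 // IsRel S chi b} = Nat.card {b : G → V1 // IsStr S chi b} *
      Nat.card V1 ^ Nat.card {v : Pl // v ∉ S.good})
    (hcrit : ∀ y, IsPr S chi i y → ((∃ y', IsPr S chi (i + 1) y' ∧ (2 : ℕ) • y' = y) ↔
      ∀ b, IsRel S chi b → CTr S chi y b = 0))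
    (P : (G → V) × (Pl → V) → Prop) :
    (Nat.card {y' : (G → V) × (Pl → V) // IsPr S chi (i + 1) y' ∧ P ((2 : ℕ) • y')} : ℤ) =
      ∑ᶠ y : {y : (G → V) × (Pl → V) // IsPr S chi i y ∧ P y},
        ∑ᶠ b : {b : G → V1 // IsRel S chi b}, sgn (CTr S chi y.1 b.1) := by
  have h1 : Finite {y : (G → V) × (Pl → V) // IsPr S chi i y} := finite_isPr h hchi hf i
  have h3 : Finite {y : (G → V) × (Pl → V) // IsPr S chi i y ∧ P y} :=
    Finite.of_injective (fun y => (⟨y.1, y.2.1⟩ : {y : (G → V) × (Pl → V) // IsPr S chi i y}))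
      fun _ _ he => Subtype.ext (congrArg (fun x => x.1) he)
  have := Fintype.ofFinite {y : (G → V) × (Pl → V) // IsPr S chi i y ∧ P y}
  rw [card_double h hchi hf P, finsum_eq_sum_of_fintype, finsum_eq_sum_of_fintype, Nat.cast_sum]
  exact Finset.sum_congr rfl fun y _ =>
    card_lift_of h hchi hf hcard (hcrit y.1 y.2.1) y.2.1

end Pool.Agent.SmH
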