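import Pool.Agent.Lib.SmH.G.Pr
import Pool.Agent.Lib.SmJ.P.Kramer

/-!
# HEIGHTS, block G_h, module Dual: duality with relaxed or strict conditions at the fixed bad places

`dualR`: no freedom at the bad places (`loc v om = xi v`), test elements in the relaxed Selmer group
`IsRel`. `dualS`: no condition at the bad places, test elements in the strict Selmer group `IsStr`.
-/

set_option autoImplicit false

open Finset

namespace Pool.Agent.SmH

open Pool.Agent.SmJ Pool.Agent.SmJ.Sys

variable {G V V1 Pl : Type*} [Group G] [AddCommGroup V] [DistribMulAction G V]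
  [AddCommGroup V1] [Module (ZMod 2) V1] {S : Sys G V V1 Pl} {chi : G → ZMod 2}

variable (S) in
/-- The values at the places of `U`. -/
def locU (U : Finset Pl) : (G → V1) →ₗ[ZMod 2] (U → V1 × V1) where
  toFun b := fun v => S.loc v.1 b
  map_add' _ _ := rfl
  map_smul' _ _ := rfl

theorem locU_apply (U : Finset Pl) (b : G → V1) (v : U) : locU S U b v = S.loc v.1 b := rfl

/-- The finite set of the bad places. -/
noncomputable def bad (h : S.Ok) : Finset Pl := h.good_fin.toFinset

theorem mem_bad {h : S.Ok} {v : Pl} : v ∈ bad h ↔ v ∉ S.good := by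
  rw [bad, Set.Finite.mem_toFinset, Set.mem_compl_iff]

/-- A sum over the places which vanishes at the good places. -/
theorem finsum_bad (h : S.Ok) {A : Type*} [AddCommMonoid A] {f : Pl → A}
    (hf : ∀ v ∈ S.good, f v = 0) : ∑ᶠ v, f v = ∑ v : bad h, f v.1 := by
  rw [Finset.sum_coe_sort (bad h) f]
  refine finsum_eq_sum_of_support_subset _ fun v hv => ?_
  rw [Finset.mem_coe, mem_bad]
  exact fun hg => hv (hf v hg)

/-- Two elements of the relaxed Selmer group are orthogonal over the bad places. -/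
theorem bU_rel (h : S.Ok) (hchi : S.HomG chi) {b b' : G → V1} (hb : IsRel S chi b)
    (hb' : IsRel S chi b') : S.bU (bad h) (locU S (bad h) b) (locU S (bad h) b') = 0 := by
  rw [bU_apply, ← h.recip b b' hb.1 hb'.1]
  exact (finsum_bad h fun v hv => h.isot chi hchi v _ (hb.2 v hv) _ (hb'.2 v hv)).symm

theorem bU_PW (h : S.Ok) (hchi : S.HomG chi) {U : Finset Pl} {x y : U → V1 × V1}
    (hx : x ∈ S.PW U chi) (hy : y ∈ S.PW U chi) : S.bU U x y = 0 := by
  rw [bU_apply]
  exact Finset.sum_eq_zero fun v _ =>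
    h.isot chi hchi v.1 _ ((S.mem_PW U).1 hx v) _ ((S.mem_PW U).1 hy v)

/-- What is orthogonal to the 2-Selmer group is the sum of a relaxed element and of local Kummer
elements. -/
private theorem Dual_split (h : S.Ok) (hchi : S.HomG chi) {eta : bad h → V1 × V1}
    (he : ∀ b, S.IsSel1 chi b → S.bU (bad h) eta (locU S (bad h) b) = 0) :
    ∃ r : G → V1, IsRel S chi r ∧ ∃ l ∈ S.PW (bad h) chi, eta = locU S (bad h) r + l := by
  classical
  let xi : Pl → V1 × V1 := fun v => if hv : v ∈ bad h then eta ⟨v, hv⟩ else 0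
  have hxg : ∀ v ∈ S.good, xi v = 0 := fun v hv => dif_neg fun hb => (mem_bad.1 hb) hv
  have hxb : ∀ v : bad h, xi v.1 = eta v := fun v => dif_pos v.2
  obtain ⟨om, hom, hloc⟩ := h.dual (S.W chi) (card_W h hchi)
    (fun v x hx y hy => h.isot chi hchi v x hx y hy) (exc_fin h hchi) xi
    ((bad h).finite_toSet.subset fun v hv => by
      rw [Finset.mem_coe, mem_bad]
      intro hg
      apply hv
      rw [hxg v hg]
      exact (S.W chi v).zero_mem)
    (fun b hb1 hb2 => by
      rw [finsum_bad h fun v hv => by rw [hxg v hv, sy_zero_left], ← he b ⟨hb1, hb2⟩, bU_apply]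
      exact Finset.sum_congr rfl fun v _ => by rw [hxb, locU_apply])
  have hrel : IsRel S chi om := by
    refine ⟨hom, fun v hv => ?_⟩
    have h1 := hloc v
    rwa [hxg v hv, sub_zero] at h1
  refine ⟨om, hrel, eta - locU S (bad h) om, ?_, by abel⟩
  rw [S.mem_PW]
  intro v
  have h1 := (S.W chi v.1).neg_mem (hloc v.1)
  rw [hxb v, neg_sub] at h1
  exact h1

/-- The image of the relaxed Selmer group in the product over the bad places is its own
orthogonal. -/
theorem exists_rel_of_orth (h : S.Ok) (hchi : S.HomG chi) {x : bad h → V1 × V1}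
    (hx : ∀ b, IsRel S chi b → S.bU (bad h) x (locU S (bad h) b) = 0) :
    ∃ b : G → V1, IsRel S chi b ∧ locU S (bad h) b = x := by
  have := h.fin1
  have : Module.Finite (ZMod 2) V1 := Module.Finite.of_finite
  obtain ⟨r, hr, l, hl, hrl⟩ := Dual_split h hchi fun b hb => hx b (isRel_of_isSel1 hb)
  -- the image of the 2-Selmer group
  let P : Submodule (ZMod 2) (bad h → V1 × V1) :=
    (AddSubgroup.toZModSubmodule 2 (S.Sel1 h chi)).map (locU S (bad h))
  have hP : ∀ y, y ∈ P ↔ ∃ b, S.IsSel1 chi b ∧ locU S (bad h) b = y := fun y => Iff.rfl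
  have hlP : l ∈ (S.bU (bad h)).orthogonal ((S.bU (bad h)).orthogonal P) := by
    rw [LinearMap.BilinForm.mem_orthogonal_iff]
    intro y hy
    rw [LinearMap.BilinForm.mem_orthogonal_iff] at hy
    obtain ⟨r', hr', l', hl', rfl⟩ := Dual_split h hchi (eta := y) fun b hb => by
      rw [S.bU_comm (bad h) h]
      exact hy _ ⟨b, hb, rfl⟩
    rw [map_add, LinearMap.add_apply, bU_PW h hchi hl' hl,
      add_zero, S.bU_comm (bad h) h]
    have h1 := hx r' hr'
    rw [hrl, map_add, LinearMap.add_apply, bU_rel h hchi hr hr', zero_add] at h1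
    exact h1
  have hrefl : (S.bU (bad h)).IsRefl := fun a b hab => by
    rw [S.bU_comm (bad h) h]
    exact hab
  rw [LinearMap.BilinForm.orthogonal_orthogonal (S.bU_nondeg (bad h) h) hrefl] at hlP
  obtain ⟨b, hb, hbl⟩ := hlP
  refine ⟨r + b, hr.add h (isRel_of_isSel1 hb), ?_⟩
  rw [map_add, hbl, hrl]

private theorem Dual_fin (h : S.Ok) {xi : Pl → V1 × V1}
    (hfin : {v | v ∈ S.good ∧ xi v ∉ S.Wl chi v}.Finite) : {v | xi v ∉ S.W chi v}.Finite := by
  refine (hfin.union h.good_fin).subset fun v hv => ?_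
  by_cases hg : v ∈ S.good
  · exact Or.inl ⟨hg, hv⟩
  · exact Or.inr hg

/-- Duality with a strict condition at the bad places and test elements in the relaxed Selmer
group. -/
theorem dualR (h : S.Ok) (hchi : S.HomG chi) {xi : Pl → V1 × V1}
    (hfin0 : {v | v ∈ S.good ∧ xi v ∉ S.Wl chi v}.Finite)
    (hxi : ∀ b, IsRel S chi b → ∑ᶠ v, S.sy v (xi v) (S.loc v b) = 0) :
    ∃ om : G → V1, S.HomG om ∧ (∀ v, v ∉ S.good → S.loc v om = xi v) ∧
      ∀ v ∈ S.good, S.loc v om - xi v ∈ S.W chi v := by
  have hfin := Dual_fin h hfin0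
  obtain ⟨om, hom, hloc⟩ := h.dual (S.W chi) (card_W h hchi)
    (fun v x hx y hy => h.isot chi hchi v x hx y hy) (exc_fin h hchi) xi hfin
    (fun b hb1 hb2 => hxi b (isRel_of_isSel1 ⟨hb1, hb2⟩))
  obtain ⟨b0, hb0, hb0e⟩ := exists_rel_of_orth h hchi
    (x := fun v : bad h => xi v.1 - S.loc v.1 om) (fun b hb => by
      have h1 : ∀ v ∈ S.good, S.sy v (xi v - S.loc v om) (S.loc v b) = 0 := fun v hv => by
        refine h.isot chi hchi v _ ?_ _ (hb.2 v hv)
        have h2 := (S.W chi v).neg_mem (hloc v)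
        rwa [neg_sub] at h2
      have h3 : ∑ᶠ v, S.sy v (xi v - S.loc v om) (S.loc v b) = 0 := by
        have h4 : ∀ v, S.sy v (xi v - S.loc v om) (S.loc v b) =
            S.sy v (xi v) (S.loc v b) + S.sy v (S.loc v om) (S.loc v b) := by
          intro v
          rw [sub_eq_add_neg, show -S.loc v om = S.loc v om from ZModModule.neg_eq_self _,
            sy_add_left]
        have hs : {v | S.sy v (xi v) (S.loc v b) ≠ 0}.Finite := by
          refine (hfin.union h.good_fin).subset fun v hv => ?_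
          by_contra hc
          rw [Set.mem_union, not_or] at hc
          exact hv (h.isot chi hchi v _ (not_not.1 hc.1) _ (hb.2 v (not_not.1 hc.2)))
        rw [finsum_congr h4, finsum_add_distrib hs (sy_supp h hom hb.1), hxi b hb,
          h.recip om b hom hb.1, add_zero]
      rw [bU_apply]
      rw [finsum_bad h h1] at h3
      exact h3)
  refine ⟨om + b0, hom.add h hb0.1, fun v hv => ?_, fun v hv => ?_⟩
  · have h1 := congrFun hb0e ⟨v, mem_bad.2 hv⟩
    rw [locU_apply] at h1
    rw [loc_add, h1]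
    abel
  · have h1 := (S.W chi v).add_mem (hloc v) (hb0.2 v hv)
    rw [loc_add]
    have h2 : S.loc v om + S.loc v b0 - xi v = S.loc v om - xi v + S.loc v b0 := by abel
    rw [h2]
    exact h1

/-- Duality without condition at the bad places and test elements in the strict Selmer group. -/
theorem dualS (h : S.Ok) (hchi : S.HomG chi) {xi : Pl → V1 × V1}
    (hfin0 : {v | v ∈ S.good ∧ xi v ∉ S.Wl chi v}.Finite)
    (hxi : ∀ b, IsStr S chi b → ∑ᶠ v, S.sy v (xi v) (S.loc v b) = 0) :
    ∃ om : G → V1, S.HomG om ∧ ∀ v ∈ S.good, S.loc v om - xi v ∈ S.W chi v := by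
  classical
  have hfin := Dual_fin h hfin0
  have := h.fin1
  have : Module.Finite (ZMod 2) V1 := Module.Finite.of_finite
  have hs : ∀ b, S.IsSel1 chi b → {v | S.sy v (xi v) (S.loc v b) ≠ 0}.Finite := by
    intro b hb
    refine hfin.subset fun v hv hW => hv ?_
    exact h.isot chi hchi v _ hW _ (hb.2 v)
  let M := AddSubgroup.toZModSubmodule 2 (S.Sel1 h chi)
  have hM : ∀ b, b ∈ M ↔ S.IsSel1 chi b := fun b => Iff.rfl
  let f : M →ₗ[ZMod 2] ZMod 2 := (AddMonoidHom.toZModLinearMap 2
    { toFun := fun b => ∑ᶠ v, S.sy v (xi v) (S.loc v b.1)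
      map_zero' := by
        refine finsum_eq_zero_of_forall_eq_zero fun v => ?_
        exact sy_zero_right v _
      map_add' := fun b b' => by
        rw [← finsum_add_distrib (hs _ b.2) (hs _ b'.2)]
        refine finsum_congr fun v => ?_
        change S.sy v (xi v) (S.loc v b.1 + S.loc v b'.1) = _
        exact sy_add_right v _ _ _ })
  have hf : ∀ b : M, f b = ∑ᶠ v, S.sy v (xi v) (S.loc v b.1) := fun b => rfl
  let Φ : M →ₗ[ZMod 2] (bad h → V1 × V1) := (locU S (bad h)).comp M.subtype
  have hker : f ∈ LinearMap.range Φ.dualMap := by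
    rw [LinearMap.range_dualMap_eq_dualAnnihilator_ker, Submodule.mem_dualAnnihilator]
    intro b hb
    rw [LinearMap.mem_ker] at hb
    rw [hf]
    refine hxi _ ⟨b.2, fun v hv => ?_⟩
    exact congrFun hb ⟨v, mem_bad.2 hv⟩
  obtain ⟨g, hg⟩ := hker
  set eta : bad h → V1 × V1 := ((S.bU (bad h)).toDual (S.bU_nondeg (bad h) h)).symm g with heta
  have he : ∀ b : M, S.bU (bad h) eta (locU S (bad h) b.1) =
      ∑ᶠ v, S.sy v (xi v) (S.loc v b.1) := by
    intro b
    rw [heta, LinearMap.BilinForm.apply_toDual_symm_apply, ← hf, ← hg]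
    rfl
  let et : Pl → V1 × V1 := fun v => if hv : v ∈ bad h then eta ⟨v, hv⟩ else 0
  have hxg : ∀ v ∈ S.good, et v = 0 := fun v hv => dif_neg fun hb => (mem_bad.1 hb) hv
  have hxb : ∀ v : bad h, et v.1 = eta v := fun v => dif_pos v.2
  obtain ⟨om, hom, hloc⟩ := h.dual (S.W chi) (card_W h hchi)
    (fun v x hx y hy => h.isot chi hchi v x hx y hy) (exc_fin h hchi) (fun v => xi v + et v)
    ((hfin.union h.good_fin).subset fun v hv => by
      by_contra hc
      rw [Set.mem_union, not_or] at hc
      apply hv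
      change xi v + et v ∈ S.W chi v
      rw [hxg v (not_not.1 hc.2), add_zero]
      exact not_not.1 hc.1)
    (fun b hb1 hb2 => by
      have h4 : ∀ v, S.sy v (xi v + et v) (S.loc v b) =
          S.sy v (xi v) (S.loc v b) + S.sy v (et v) (S.loc v b) := fun v => sy_add_left v _ _ _
      have h5 : {v | S.sy v (et v) (S.loc v b) ≠ 0}.Finite := by
        refine h.good_fin.subset fun v hv hg => hv ?_
        rw [hxg v hg, sy_zero_left]
      have h6 : ∑ᶠ v, S.sy v (et v) (S.loc v b) = S.bU (bad h) eta (locU S (bad h) b) := by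
        rw [finsum_bad h fun v hv => by rw [hxg v hv, sy_zero_left], bU_apply]
        exact Finset.sum_congr rfl fun v _ => by rw [hxb, locU_apply]
      rw [finsum_congr h4, finsum_add_distrib (hs b ⟨hb1, hb2⟩) h5, h6,
        he ⟨b, (hM b).2 ⟨hb1, hb2⟩⟩]
      exact CharTwo.add_self_eq_zero _)
  refine ⟨om, hom, fun v hv => ?_⟩
  have h1 := hloc v
  rwa [hxg v hv, add_zero] at h1

end Pool.Agent.SmH
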